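import Mathlib

/-! # Project LI: families of algebraically independent generators of a field (auxiliary) -/

set_option autoImplicit false

namespace Pool.Agent.Y710.LI

open IntermediateField Module

noncomputable section

/-- lifting an algebraically independent family to the field it generates. -/
theorem lift_family {B K ι : Type} [Field B] [Field K] [Algebra B K] (c : ι → K)
    (hc : AlgebraicIndependent B c) :
    ∃ c' : ι → adjoin B (Set.range c), (∀ i, algebraMap (adjoin B (Set.range c)) K (c' i) = c i) ∧
      AlgebraicIndependent B c' ∧ adjoin B (Set.range c') = ⊤ := by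
  refine ⟨fun i => ⟨c i, subset_adjoin B _ ⟨i, rfl⟩⟩, fun i => rfl, ?_, ?_⟩
  · exact AlgebraicIndependent.of_comp (adjoin B (Set.range c)).val hc
  · apply (IntermediateField.map_injective (adjoin B (Set.range c)).val)
    rw [adjoin_map, ← AlgHom.fieldRange_eq_map, fieldRange_val, ← Set.range_comp]
    rfl

/-- one more generator: transcendence and degrees. -/
theorem one_more {B K E ι : Type} [Field B] [Field K] [Field E] [Algebra B K] [Algebra K E]
    [FiniteDimensional K E] (c : ι → K) (l : K)
    (hc : AlgebraicIndependent B (fun o : Option ι => o.elim l c))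
    (htop : adjoin B (Set.range c ∪ {l}) = ⊤) :
    Transcendental (adjoin B (Set.range c)) (algebraMap K E l) ∧
      FiniteDimensional (adjoin (adjoin B (Set.range c)) {algebraMap K E l}) E ∧
      finrank (adjoin (adjoin B (Set.range c)) {algebraMap K E l}) E = finrank K E := by
  have hc0 : AlgebraicIndependent B c := hc.comp (fun i => some i) (fun i j h => by simpa using h)
  have h1 : Transcendental (adjoin B (Set.range c)) l :=
    transcendental_adjoin_iff.mpr ((hc0.option_iff_transcendental l).mp hc)
  have h2 : Transcendental (adjoin B (Set.range c)) (algebraMap K E l) := by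
    rw [transcendental_algebraMap_iff (algebraMap K E).injective]
    exact h1
  refine ⟨h2, ?_⟩
  -- the image of `K` is the field generated
  set K' := adjoin B (Set.range c) with hK'
  have h3 : adjoin K' {l} = ⊤ := by
    apply restrictScalars_injective B
    rw [adjoin_adjoin_left, htop, restrictScalars_top]
  have h4 : (IsScalarTower.toAlgHom K' K E).fieldRange = adjoin K' {algebraMap K E l} := by
    rw [AlgHom.fieldRange_eq_map, ← h3, adjoin_map, Set.image_singleton]
    rfl
  rw [← h4]
  let i : K ≃+* (IsScalarTower.toAlgHom K' K E).fieldRange :=
    (AlgEquiv.ofInjectiveField (IsScalarTower.toAlgHom K' K E)).toRingEquiv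
  have hi : (algebraMap (IsScalarTower.toAlgHom K' K E).fieldRange E).comp i =
      ((RingEquiv.refl E : E ≃+* E) : E →+* E).comp (algebraMap K E) := by
    ext x
    rfl
  exact ⟨Module.Finite.of_equiv_equiv i (RingEquiv.refl E) hi,
    (Algebra.finrank_eq_of_equiv_equiv i (RingEquiv.refl E) hi).symm⟩

end

end Pool.Agent.Y710.LI
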