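import Mathlib
import Pool.Agent.Y201.LI.Stm
import Pool.Agent.Y710.LI.FieldAux

/-! # Project LI, job ONE: closed points of a generic member of a base point free system -/

set_option autoImplicit false

namespace Pool.Agent.Y710.LI

open MvPolynomial Pool.Agent.TH314.PD IntermediateField Module Pool.Agent.Y201.LI

noncomputable section

theorem bpf_insert {B : Type} [Field B] {r m : ℕ} (Z : Set (MvPolynomial (Fin r) B))
    (Φ : Fin (m + 1) → MvPolynomial (Fin r) B) (h : Bpf Z Φ) :
    Bpf (insert (Φ (Fin.last m)) Z) (fun i : Fin m => Φ i.castSucc) := by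
  intro κ _ φ z hZ hΦ
  refine h κ φ z (fun G hG => hZ G (Set.mem_insert_of_mem _ hG)) (fun i => ?_)
  refine Fin.lastCases ?_ (fun j => ?_) i
  · exact hZ _ (Set.mem_insert _ _)
  · exact hΦ j

/-- the step when the last form vanishes at the point -/
theorem enlarge {B K ι : Type} [Field B] [Field K] [Algebra B K] {m : ℕ}
    (a : Fin (m + 1) → K) (c : ι → K)
    (hai : AlgebraicIndependent B (Sum.elim a c)) :
    AlgebraicIndependent B (Sum.elim (fun i : Fin m => a i.castSucc)
      (fun o : Option ι => o.elim (a (Fin.last m)) c)) := by
  let g : Fin m ⊕ Option ι → Fin (m + 1) ⊕ ι :=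
    Sum.elim (fun i => Sum.inl i.castSucc)
      (fun o => o.elim (Sum.inl (Fin.last m)) (fun j => Sum.inr j))
  have hg : Function.Injective g := by
    rintro (i | _ | i) (j | _ | j) h <;> simp_all [g]
    exact absurd h (Fin.castSucc_lt_last _).ne'
  have h := hai.comp g hg
  convert h using 1
  funext x
  rcases x with i | _ | i <;> rfl

theorem range_last {K : Type} {m : ℕ} (a : Fin (m + 1) → K) :
    Set.range a = insert (a (Fin.last m)) (Set.range fun i : Fin m => a i.castSucc) := by
  ext x
  constructor
  · rintro ⟨i, rfl⟩
    refine Fin.lastCases ?_ (fun j => ?_) i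
    · exact Set.mem_insert _ _
    · exact Set.mem_insert_of_mem _ ⟨j, rfl⟩
  · rintro (rfl | ⟨i, rfl⟩)
    · exact ⟨_, rfl⟩
    · exact ⟨_, rfl⟩

/-- the other form of the same family: the last one is the new element -/
theorem last_option {B K ι : Type} [Field B] [Field K] [Algebra B K] {m : ℕ}
    (a : Fin (m + 1) → K) (c : ι → K)
    (hai : AlgebraicIndependent B (Sum.elim a c)) :
    AlgebraicIndependent B (fun o : Option (Fin m ⊕ ι) => o.elim (a (Fin.last m))
      (Sum.elim (fun i : Fin m => a i.castSucc) c)) := by
  let g : Option (Fin m ⊕ ι) → Fin (m + 1) ⊕ ι :=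
    fun o => o.elim (Sum.inl (Fin.last m))
      (Sum.elim (fun i => Sum.inl i.castSucc) (fun j => Sum.inr j))
  have hg : Function.Injective g := by
    rintro (_ | i | i) (_ | j | j) h <;> simp_all [g]
    exact absurd h.symm (Fin.castSucc_lt_last _).ne
  have h := hai.comp g hg
  convert h using 1
  funext x
  rcases x with _ | i | i <;> rfl

theorem aeval_map_comp {B K κ : Type} [Field B] [Field K] [Field κ] [Algebra B K] [Algebra K κ]
    {r : ℕ} (z : Fin r → κ) (G : MvPolynomial (Fin r) B) :
    aeval z (map (algebraMap B K) G) = eval₂ ((algebraMap K κ).comp (algebraMap B K)) z G := by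
  rw [aeval_def, eval₂_map]

theorem one (h : S_PL) : S_ONE := by
  intro B _ _ r e m
  induction m with
  | zero =>
    intro Z Φ _ _ hbpf ι K E _ _ _ _ _ a c _ _ y hy hZ _
    exact absurd (hbpf E ((algebraMap K E).comp (algebraMap B K)) y hZ (fun i => i.elim0)) hy
  | succ m ih =>
    intro Z Φ hZh hΦh hbpf ι K E _ _ _ _ _ a c hai htop y hy hZ hsum
    have hbpf' := bpf_insert Z Φ hbpf
    have hZh' : ∀ G ∈ insert (Φ (Fin.last m)) Z, ∃ d, G.IsHomogeneous d := by
      rintro G (rfl | hG)
      · exact ⟨e, hΦh _⟩
      · exact hZh G hG
    have hΦh' : ∀ i : Fin m, (Φ i.castSucc).IsHomogeneous e := fun i => hΦh _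
    rw [Fin.sum_univ_castSucc] at hsum
    by_cases hψ : eval₂ ((algebraMap K E).comp (algebraMap B K)) y (Φ (Fin.last m)) = 0
    · refine ih _ _ hZh' hΦh' hbpf' (Option ι) K E (fun i => a i.castSucc)
        (fun o => o.elim (a (Fin.last m)) c) (enlarge a c hai) ?_ y hy ?_ ?_
      · rw [← htop]
        congr 1
        rw [range_last a]
        ext x
        constructor
        · rintro (hx | ⟨_ | i, rfl⟩)
          · exact Or.inl (Set.mem_insert_of_mem _ hx)
          · exact Or.inl (Set.mem_insert _ _)
          · exact Or.inr ⟨i, rfl⟩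
        · rintro ((rfl | hx) | ⟨i, rfl⟩)
          · exact Or.inr ⟨none, rfl⟩
          · exact Or.inl hx
          · exact Or.inr ⟨some i, rfl⟩
      · rintro G (rfl | hG)
        · exact hψ
        · exact hZ G hG
      · rw [hψ, mul_zero, add_zero] at hsum
        exact hsum
    · -- the main case
      set l := a (Fin.last m) with hl
      set s : Fin m ⊕ ι → K := Sum.elim (fun i : Fin m => a i.castSucc) c with hs
      have hopt := last_option a c hai
      have hs0 : AlgebraicIndependent B s :=
        hopt.comp (fun i => some i) (fun i j h => by simpa using h)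
      have htop' : adjoin B (Set.range s ∪ {l}) = ⊤ := by
        rw [← htop]
        congr 1
        rw [range_last a, hs, Set.Sum.elim_range]
        ext x
        simp only [Set.mem_union, Set.mem_insert_iff, Set.mem_singleton_iff]
        tauto
      obtain ⟨htr, hfd, hfr⟩ := one_more (E := E) s l hopt htop'
      have hlift := lift_family s hs0
      set K' := adjoin B (Set.range s) with hK'
      obtain ⟨s', hs', hai', htop''⟩ := hlift
      -- the two forms
      set Q : MvPolynomial (Fin r) K' := map (algebraMap B K') (Φ (Fin.last m)) with hQ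
      set P : MvPolynomial (Fin r) K' :=
        -∑ i : Fin m, C (s' (Sum.inl i)) * map (algebraMap B K') (Φ i.castSucc) with hP
      have hPh : P.IsHomogeneous e := by
        rw [hP]
        refine IsHomogeneous.neg ?_
        refine IsHomogeneous.sum _ _ _ (fun i _ => ?_)
        have := (isHomogeneous_C (Fin r) (s' (Sum.inl i))).mul ((hΦh' i).map (algebraMap B K'))
        rwa [zero_add] at this
      have hQh : Q.IsHomogeneous e := (hΦh _).map _
      have hcomp : (algebraMap K' E).comp (algebraMap B K') =
          (algebraMap K E).comp (algebraMap B K) := by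
        ext x
        rfl
      have hyQ : aeval y Q = eval₂ ((algebraMap K E).comp (algebraMap B K)) y (Φ (Fin.last m)) := by
        rw [hQ, aeval_map_comp, hcomp]
      have hPz : ∀ (κ : Type) [Field κ] [Algebra K' κ] (z : Fin r → κ), aeval z P =
          -∑ i : Fin m, algebraMap K' κ (s' (Sum.inl i)) *
            eval₂ ((algebraMap K' κ).comp (algebraMap B K')) z (Φ i.castSucc) := by
        intro κ _ _ z
        rw [hP, map_neg, map_sum]
        congr 1
        refine Finset.sum_congr rfl (fun i _ => ?_)
        rw [map_mul, aeval_map_comp, aeval_C]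
      have hyP : aeval y P = algebraMap K E l * aeval y Q := by
        rw [hPz E y, hyQ, hcomp]
        have h5 : ∀ i : Fin m, algebraMap K' E (s' (Sum.inl i)) = algebraMap K E (a i.castSucc) := by
          intro i
          have := hs' (Sum.inl i)
          rw [IsScalarTower.algebraMap_apply K' K E, this]
          rfl
        simp only [h5]
        rw [neg_eq_iff_add_eq_zero]
        exact hsum
      have key := h K' E r e y P Q (algebraMap K E l) hPh hQh htr hfd (by rw [hyQ]; exact hψ) hyP
        1 e ⟨1, by ring⟩ ?_
      · rw [← hfr]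
        exact key
      · intro κ _ _ _ z hz hG
        refine ⟨one_dvd _, fun hzP hzQ => ?_⟩
        refine ih _ _ hZh' hΦh' hbpf' ι K' κ (fun i => s' (Sum.inl i)) (fun j => s' (Sum.inr j))
          ?_ ?_ z hz ?_ ?_
        · convert hai' using 1
          funext x
          rcases x with i | i <;> rfl
        · rw [← htop'', ← Set.Sum.elim_range]
          congr 2
          funext x
          rcases x with i | i <;> rfl
        · rintro G (rfl | hG')
          · rw [← aeval_map_comp]
            exact hzQ
          · obtain ⟨d, hd⟩ := hZh G hG'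
            rw [← aeval_map_comp]
            refine hG d _ (hd.map _) ?_
            rw [aeval_map_comp, hcomp]
            exact hZ G hG'
        · rw [hPz κ z, neg_eq_zero] at hzP
          exact hzP

end

end Pool.Agent.Y710.LI
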